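import Mathlib
import Pool.Agent.H1.CovDefs
import Pool.Agent.H1.CovB

open Pool.Agent.H1.Cov

theorem Pool.Agent.Results.MP_5b767b_an.Disproof.result : ∃ G₁ G₂ : WGraph,
    G₁.Amenable ∧ G₁.Connected ∧ G₁.UnifBdd ∧ G₁.Covers G₂ ∧
    (∀ v e, G₁.wt v e = 1) ∧ (∀ v e, G₂.wt v e = 1) ∧
    ∃ z : ℂ, G₂.InSpec z ∧ G₁.NotInSpec z := by
  obtain ⟨G₁, G₂, H₁, H₂, h1, h2, h3, h4, h5, h6, h7, h8, z, h9, h10⟩ := main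
  exact ⟨G₁, G₂, h1, h2, h3, h4, h7, h8, z, ⟨H₂, h6, h9⟩, ⟨H₁, h5, h10⟩⟩
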